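import Pool.Agent.H68.QT.Targets

/-!
# (TWM) monotonicity of the towers in the depth of the trees
-/

set_option autoImplicit false

namespace Pool.Agent.H13.QT

open Pool.Agent.H68.QT Pool.Agent.H68.QC Pool.Agent.H70.OQ Pool.Agent.H70.RK Pool.Agent.H6.NB Finset

theorem pf_TWM : T_TWM := by
  intro V m j
  induction j with
  | zero =>
    intro t t' T V1 V0 h hC
    obtain ⟨A, tr, hA, hT, hd, h1, h0⟩ := hC
    exact ⟨A, tr, hA, hT, fun w => (hd w).trans h, h1, h0⟩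
  | succ j ih =>
    intro t t' T V1 V0 h hC
    obtain ⟨A, tr, P1, P0, hA, hT, hd, hC, h1, h0⟩ := hC
    refine ⟨A, tr, P1, P0, hA, hT, fun w => (hd w).trans h, fun w hw => ?_, h1, h0⟩
    obtain ⟨Q1, Q0, hQ, a, b⟩ := hC w hw
    exact ⟨Q1, Q0, fun v hv => ih t t' T _ _ h (hQ v hv), a, b⟩

end Pool.Agent.H13.QT
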